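import Pool.Agent.H65.AP.Targets

/-!
# MP_0ee698_an: module CRL (calculus of the curl)
-/

open MeasureTheory Set Filter Topology Metric
open scoped ENNReal NNReal ContDiff RealInnerProductSpace

namespace Pool.Agent.H11.AP

open Pool.Agent.H94.IC Pool.Agent.H94.AC Pool.Agent.H92.CK Pool.Agent.H65.AP

/-- components of the derivative -/
theorem fd_comp {A : E → E} {x : E} (h : DifferentiableAt ℝ A x) (v : E) (i : Fin 3) :
    (fderiv ℝ A x v) i = fderiv ℝ (fun y => A y i) x v := by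
  have h1 : HasFDerivAt (fun y => A y i)
      ((EuclideanSpace.proj i : E →L[ℝ] ℝ).comp (fderiv ℝ A x)) x :=
    (EuclideanSpace.proj i : E →L[ℝ] ℝ).hasFDerivAt.comp x h.hasFDerivAt
  rw [h1.fderiv]
  rfl

theorem fd_pd {A : E → E} {x : E} (h : DifferentiableAt ℝ A x) (k i : Fin 3) :
    (fderiv ℝ A x (ev k)) i = pd k (fun y => A y i) x := fd_comp h (ev k) i

theorem cmp_smooth {A : E → E} (h : ContDiff ℝ ∞ A) (i : Fin 3) :
    ContDiff ℝ ∞ fun y => A y i := contDiff_euclidean.1 h i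

theorem pd_sm {f : E → ℝ} (h : ContDiff ℝ ∞ f) (k : Fin 3) : ContDiff ℝ ∞ (pd k f) :=
  (h.fderiv_right (m := ∞) (by simp)).clm_apply contDiff_const

theorem pd_cm {f : E → ℝ} (h : ContDiff ℝ ∞ f) (x : E) (j k : Fin 3) :
    pd j (pd k f) x = pd k (pd j f) x := by
  have h0 : ContDiffAt ℝ 2 f x := (h.of_le (by norm_cast)).contDiffAt
  have h1 : DifferentiableAt ℝ (fderiv ℝ f) x := by
    have : ContDiffAt ℝ 1 (fderiv ℝ f) x := h0.fderiv_right (m := 1) (by norm_num)
    exact this.differentiableAt (by norm_num)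
  have h2 : ∀ i l : Fin 3, pd i (pd l f) x = fderiv ℝ (fderiv ℝ f) x (ev i) (ev l) := by
    intro i l
    unfold pd
    have h4 : HasFDerivAt (fun y => fderiv ℝ f y (ev l))
        ((ContinuousLinearMap.apply ℝ ℝ (ev l)).comp (fderiv ℝ (fderiv ℝ f) x)) x :=
      (ContinuousLinearMap.apply ℝ ℝ (ev l)).hasFDerivAt.comp x h1.hasFDerivAt
    rw [h4.fderiv]
    simp
  rw [h2, h2]
  exact (h0.isSymmSndFDerivAt (by simp)) (ev j) (ev k)

theorem dif {f : E → ℝ} (h : ContDiff ℝ ∞ f) (x : E) : DifferentiableAt ℝ f x :=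
  h.differentiable (by simp) x

theorem difE {f : E → E} (h : ContDiff ℝ ∞ f) (x : E) : DifferentiableAt ℝ f x :=
  h.differentiable (by simp) x

theorem pd_lin {f g : E → ℝ} (hf : ContDiff ℝ ∞ f) (hg : ContDiff ℝ ∞ g) (a b : ℝ) (k : Fin 3)
    (x : E) : pd k (fun y => a * f y - b * g y) x = a * pd k f x - b * pd k g x := by
  unfold pd
  have h1 : HasFDerivAt (fun y => a * f y - b * g y)
      (a • fderiv ℝ f x - b • fderiv ℝ g x) x :=
    ((dif hf x).hasFDerivAt.const_mul a).sub ((dif hg x).hasFDerivAt.const_mul b)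
  rw [h1.fderiv]
  simp

theorem pd_sub {f g : E → ℝ} (hf : ContDiff ℝ ∞ f) (hg : ContDiff ℝ ∞ g) (k : Fin 3)
    (x : E) : pd k (fun y => f y - g y) x = pd k f x - pd k g x := by
  have := pd_lin hf hg 1 1 k x
  simpa using this

theorem gr_cmp (f : E → ℝ) (x : E) (k : Fin 3) : (gr f x) k = pd k f x := by
  unfold pd gr
  rw [← inner_gradient_left, EuclideanSpace.inner_single_right]
  simp

/-- the components of the curl -/
theorem curl_eq {A : E → E} {x : E} (h : DifferentiableAt ℝ A x) :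
    curl A x = !₂[pd 1 (fun y => A y 2) x - pd 2 (fun y => A y 1) x,
      pd 2 (fun y => A y 0) x - pd 0 (fun y => A y 2) x,
      pd 0 (fun y => A y 1) x - pd 1 (fun y => A y 0) x] := by
  unfold curl
  rw [fd_pd h, fd_pd h, fd_pd h, fd_pd h, fd_pd h, fd_pd h]

theorem curl_smooth {A : E → E} (h : ContDiff ℝ ∞ A) : ContDiff ℝ ∞ (curl A) := by
  have e : curl A = fun x => !₂[pd 1 (fun y => A y 2) x - pd 2 (fun y => A y 1) x,
      pd 2 (fun y => A y 0) x - pd 0 (fun y => A y 2) x,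
      pd 0 (fun y => A y 1) x - pd 1 (fun y => A y 0) x] := by
    funext x
    exact curl_eq (difE h x)
  rw [e, contDiff_euclidean]
  intro i
  fin_cases i
  · exact (pd_sm (cmp_smooth h 2) 1).sub (pd_sm (cmp_smooth h 1) 2)
  · exact (pd_sm (cmp_smooth h 0) 2).sub (pd_sm (cmp_smooth h 2) 0)
  · exact (pd_sm (cmp_smooth h 1) 0).sub (pd_sm (cmp_smooth h 0) 1)

theorem curl_supp (A : E → E) : tsupport (curl A) ⊆ tsupport A := by
  intro x hx
  by_contra h
  have h1 : A =ᶠ[𝓝 x] 0 := notMem_tsupport_iff_eventuallyEq.mp h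
  have h2 : curl A =ᶠ[𝓝 x] 0 := by
    filter_upwards [h1.eventuallyEq_nhds] with y hy
    unfold curl
    rw [hy.fderiv_eq]
    ext i
    fin_cases i <;> simp
  exact (notMem_tsupport_iff_eventuallyEq.2 h2) hx

theorem dv_eq {A : E → E} {x : E} (h : DifferentiableAt ℝ A x) :
    dv A x = pd 0 (fun y => A y 0) x + pd 1 (fun y => A y 1) x + pd 2 (fun y => A y 2) x := by
  unfold dv
  rw [Fin.sum_univ_three, fd_pd h, fd_pd h, fd_pd h]

theorem dv_curl {A : E → E} (h : ContDiff ℝ ∞ A) (x : E) : dv (curl A) x = 0 := by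
  have s := fun i : Fin 3 => cmp_smooth h i
  rw [dv_eq (difE (curl_smooth h) x)]
  have e0 : (fun y => curl A y 0) =
      fun y => pd 1 (fun z => A z 2) y - pd 2 (fun z => A z 1) y := by
    funext y
    rw [curl_eq (difE h y)]
    rfl
  have e1 : (fun y => curl A y 1) =
      fun y => pd 2 (fun z => A z 0) y - pd 0 (fun z => A z 2) y := by
    funext y
    rw [curl_eq (difE h y)]
    rfl
  have e2 : (fun y => curl A y 2) =
      fun y => pd 0 (fun z => A z 1) y - pd 1 (fun z => A z 0) y := by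
    funext y
    rw [curl_eq (difE h y)]
    rfl
  rw [e0, e1, e2, pd_sub (pd_sm (s 2) 1) (pd_sm (s 1) 2), pd_sub (pd_sm (s 0) 2) (pd_sm (s 2) 0),
    pd_sub (pd_sm (s 1) 0) (pd_sm (s 0) 1), pd_cm (s 2) x 0 1, pd_cm (s 1) x 0 2,
    pd_cm (s 0) x 1 2]
  ring

theorem curl_add {A B : E → E} (hA : ContDiff ℝ ∞ A) (hB : ContDiff ℝ ∞ B) (x : E) :
    curl (fun y => A y + B y) x = curl A x + curl B x := by
  unfold curl
  have h1 : fderiv ℝ (fun y => A y + B y) x = fderiv ℝ A x + fderiv ℝ B x :=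
    fderiv_fun_add (difE hA x) (difE hB x)
  rw [h1]
  ext i
  fin_cases i
  · simp
    ring
  · simp
    ring
  · simp
    ring

theorem curl_smul {φ : E → ℝ} (hφ : ContDiff ℝ ∞ φ) (k : Fin 3) (x : E) :
    curl (fun y => φ y • ev k) x = !₂[(ev k) 2 * pd 1 φ x - (ev k) 1 * pd 2 φ x,
      (ev k) 0 * pd 2 φ x - (ev k) 2 * pd 0 φ x, (ev k) 1 * pd 0 φ x - (ev k) 0 * pd 1 φ x] := by
  have hs : ContDiff ℝ ∞ fun y => φ y • ev k := hφ.smul contDiff_const
  have e : ∀ i j : Fin 3, pd j (fun y => (φ y • ev k) i) x = (ev k) i * pd j φ x := by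
    intro i j
    have : (fun y => (φ y • ev k) i) = fun y => (ev k) i * φ y - 0 * φ y := by
      funext y
      simp [mul_comm]
    rw [this, pd_lin hφ hφ]
    ring
  rw [curl_eq (difE hs x), e, e, e, e, e, e]

theorem curl_curl {φ : E → ℝ} (hφ : ContDiff ℝ ∞ φ) (k : Fin 3) (x : E) :
    gr (pd k φ) x = curl (curl fun y => φ y • ev k) x + (∑ j : Fin 3, pd j (pd j φ) x) • ev k := by
  have hs : ContDiff ℝ ∞ fun y => φ y • ev k := hφ.smul contDiff_const
  have hp := fun j : Fin 3 => pd_sm hφ j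
  have e0 : (fun y => curl (fun y => φ y • ev k) y 0) =
      fun y => (ev k) 2 * pd 1 φ y - (ev k) 1 * pd 2 φ y := by
    funext y
    rw [curl_smul hφ]
    rfl
  have e1 : (fun y => curl (fun y => φ y • ev k) y 1) =
      fun y => (ev k) 0 * pd 2 φ y - (ev k) 2 * pd 0 φ y := by
    funext y
    rw [curl_smul hφ]
    rfl
  have e2 : (fun y => curl (fun y => φ y • ev k) y 2) =
      fun y => (ev k) 1 * pd 0 φ y - (ev k) 0 * pd 1 φ y := by
    funext y
    rw [curl_smul hφ]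
    rfl
  rw [curl_eq (difE (curl_smooth hs) x), e0, e1, e2, pd_lin (hp 1) (hp 2), pd_lin (hp 1) (hp 2),
    pd_lin (hp 2) (hp 0), pd_lin (hp 2) (hp 0), pd_lin (hp 0) (hp 1), pd_lin (hp 0) (hp 1),
    Fin.sum_univ_three]
  ext i
  rw [gr_cmp]
  have c1 := pd_cm hφ x 0 1
  have c2 := pd_cm hφ x 0 2
  have c3 := pd_cm hφ x 1 2
  fin_cases k <;> fin_cases i <;> simp <;> linarith

theorem exists_pot (c : E) : ∃ B : E → E, ContDiff ℝ ∞ B ∧ ∀ x, curl B x = c := by
  have hs : ∀ i : Fin 3, ContDiff ℝ ∞ fun x : E => x i := fun i => contDiff_piLp_apply (p := 2)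
  have hd : ∀ (k l : Fin 3) (x : E), pd k (fun x : E => x l) x = if k = l then 1 else 0 := by
    intro k l x
    have h1 : HasFDerivAt (fun x : E => x l) (EuclideanSpace.proj l : E →L[ℝ] ℝ) x :=
      (EuclideanSpace.proj l : E →L[ℝ] ℝ).hasFDerivAt
    unfold pd
    rw [h1.fderiv]
    simp [EuclideanSpace.proj, eq_comm]
  let B : E → E := fun x => !₂[c 1 / 2 * x 2 - c 2 / 2 * x 1, c 2 / 2 * x 0 - c 0 / 2 * x 2,
    c 0 / 2 * x 1 - c 1 / 2 * x 0]
  have hB : ContDiff ℝ ∞ B := by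
    rw [contDiff_euclidean]
    intro i
    fin_cases i
    · exact (contDiff_const.mul (hs 2)).sub (contDiff_const.mul (hs 1))
    · exact (contDiff_const.mul (hs 0)).sub (contDiff_const.mul (hs 2))
    · exact (contDiff_const.mul (hs 1)).sub (contDiff_const.mul (hs 0))
  refine ⟨B, hB, fun x => ?_⟩
  have e0 : (fun y => B y 0) = fun y : E => c 1 / 2 * y 2 - c 2 / 2 * y 1 := rfl
  have e1 : (fun y => B y 1) = fun y : E => c 2 / 2 * y 0 - c 0 / 2 * y 2 := rfl
  have e2 : (fun y => B y 2) = fun y : E => c 0 / 2 * y 1 - c 1 / 2 * y 0 := rfl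
  rw [curl_eq (difE hB x), e0, e1, e2, pd_lin (hs 2) (hs 1), pd_lin (hs 2) (hs 1),
    pd_lin (hs 0) (hs 2), pd_lin (hs 0) (hs 2), pd_lin (hs 1) (hs 0), pd_lin (hs 1) (hs 0)]
  simp only [hd]
  ext i
  fin_cases i <;> simp

theorem pf_CRL : T_CRL :=
  ⟨fun A hA => ⟨curl_smooth hA, curl_supp A, dv_curl hA⟩, fun _ _ hA hB => curl_add hA hB,
    fun _ k hφ => curl_curl hφ k, exists_pot⟩

end Pool.Agent.H11.AP
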