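import Pool.Agent.H65.AP.Targets

/-!
# MP_0ee698_an: module CTX (cutoff functions)
-/

open MeasureTheory Set Filter Topology Metric
open scoped ENNReal NNReal ContDiff RealInnerProductSpace Manifold

namespace Pool.Agent.H11.AP

open Pool.Agent.H94.IC Pool.Agent.H94.AC Pool.Agent.H92.CK Pool.Agent.H65.AP

theorem pf_CTX : T_CTX := by
  intro Ω r hΩ hr
  have hfr : (frontier Ω).Nonempty := by
    by_contra h
    rw [Set.not_nonempty_iff_eq_empty] at h
    have hcl : IsClopen Ω := isClopen_iff_frontier_eq_empty.2 h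
    rcases isClopen_iff.1 hcl with h1 | h1
    · exact hΩ.conn.nonempty.ne_empty h1
    · have := hΩ.bdd
      rw [h1] at this
      exact (NormedSpace.noncompactSpace ℝ E).noncompact_univ
        (isCompact_of_isClosed_isBounded isClosed_univ this)
  have hcont : Continuous fun x : E => infDist x (frontier Ω) := continuous_infDist_pt _
  let K0 : Set E := closure Ω ∩ {x | r / 2 ≤ infDist x (frontier Ω)}
  let K1 : Set E := Ωᶜ ∪ {x | infDist x (frontier Ω) ≤ r / 4}
  have h0 : IsClosed K0 := isClosed_closure.inter (isClosed_le continuous_const hcont)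
  have h1 : IsClosed K1 := hΩ.op.isClosed_compl.union (isClosed_le hcont continuous_const)
  have hd : Disjoint K0 K1 := by
    rw [Set.disjoint_left]
    rintro x ⟨hx1, hx2⟩ (hx | hx)
    · have : x ∈ frontier Ω := by
        rw [frontier, Set.mem_sdiff, hΩ.op.interior_eq]
        exact ⟨hx1, hx⟩
      have h3 := infDist_zero_of_mem this
      have h4 : r / 2 ≤ infDist x (frontier Ω) := hx2
      linarith
    · have h4 : r / 2 ≤ infDist x (frontier Ω) := hx2
      have h5 : infDist x (frontier Ω) ≤ r / 4 := hx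
      linarith
  obtain ⟨f, hf0, hf1, -⟩ := exists_contMDiffMap_zero_one_of_isClosed (n := (⊤ : ℕ∞)) 𝓘(ℝ, E) h0 h1 hd
  refine ⟨f, f.contMDiff.contDiff, ?_, fun x hx hx2 => hf0 ⟨subset_closure hx, hx2⟩⟩
  refine ⟨(closure Ω)ᶜ ∪ {x | infDist x (frontier Ω) < r / 4},
    isClosed_closure.isOpen_compl.union (isOpen_lt hcont continuous_const), fun x hx => ?_, ?_⟩
  · by_cases h : x ∈ closure Ω
    · right
      have : x ∈ frontier Ω := by
        rw [frontier, Set.mem_sdiff, hΩ.op.interior_eq]
        exact ⟨h, hx⟩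
      show infDist x (frontier Ω) < r / 4
      rw [infDist_zero_of_mem this]
      linarith
    · exact Or.inl h
  · rintro x (hx | hx)
    · exact hf1 (Or.inl fun h => hx (subset_closure h))
    · have h5 : infDist x (frontier Ω) < r / 4 := hx
      exact hf1 (Or.inr h5.le)

end Pool.Agent.H11.AP
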