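import Pool.Agent.H65.AP.Targets
import Pool.Agent.H29.IC.MVG

/-!
# MP_0ee698_an: module MVB (mean values of harmonic gradients)
-/

open MeasureTheory Set Filter Topology Metric
open scoped ENNReal NNReal ContDiff RealInnerProductSpace

namespace Pool.Agent.H11.AP

open Pool.Agent.H94.IC Pool.Agent.H94.AC Pool.Agent.H92.CK Pool.Agent.H65.AP
open Pool.Agent.H29.IC (ibp_cpt2 harm_pd dv_gr contDiffAt_gr inner_E gr_apply inner_gr)

/-! ## Radial test functions -/

/-- the profile -/
noncomputable def gN (n : ℕ) (t : ℝ) : ℝ := Real.smoothTransition (n * (1 - t))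

theorem gN_smooth (n : ℕ) : ContDiff ℝ ∞ (gN n) := by
  unfold gN
  exact Real.smoothTransition.contDiff.comp (contDiff_const.mul (contDiff_const.sub contDiff_id))

theorem gN_zero (n : ℕ) {t : ℝ} (h : 1 ≤ t) : gN n t = 0 :=
  Real.smoothTransition.zero_of_nonpos
    (mul_nonpos_of_nonneg_of_nonpos (Nat.cast_nonneg n) (by linarith))

theorem gN_abs (n : ℕ) (t : ℝ) : |gN n t| ≤ 1 := by
  unfold gN
  rw [abs_of_nonneg (Real.smoothTransition.nonneg _)]
  exact Real.smoothTransition.le_one _

theorem gN_lim {t : ℝ} (h : t < 1) : Tendsto (fun n => gN n t) atTop (𝓝 1) := by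
  obtain ⟨N, hN⟩ := exists_nat_ge (1 / (1 - t))
  refine tendsto_const_nhds.congr' ?_
  filter_upwards [eventually_ge_atTop N] with n hn
  symm
  apply Real.smoothTransition.one_of_one_le
  have h0 : 0 < 1 - t := by linarith
  have h1 : 1 / (1 - t) ≤ n := hN.trans (by exact_mod_cast hn)
  rwa [div_le_iff₀ h0] at h1

/-- the primitive of the profile -/
noncomputable def gP (n : ℕ) (t : ℝ) : ℝ := (∫ u in (1 : ℝ)..t, gN n u) / 2

theorem gP_deriv (n : ℕ) (t : ℝ) : HasDerivAt (gP n) (gN n t / 2) t := by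
  unfold gP
  have h : HasDerivAt (fun u => ∫ x in (1 : ℝ)..u, gN n x) (gN n t) t :=
    intervalIntegral.integral_hasDerivAt_right
      ((gN_smooth n).continuous.intervalIntegrable _ _)
      ((gN_smooth n).continuous.stronglyMeasurableAtFilter _ _)
      (gN_smooth n).continuous.continuousAt
  exact h.div_const 2

theorem gP_smooth (n : ℕ) : ContDiff ℝ ∞ (gP n) := by
  rw [contDiff_infty_iff_deriv]
  refine ⟨fun t => (gP_deriv n t).differentiableAt, ?_⟩
  have : deriv (gP n) = fun t => gN n t / 2 := by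
    funext t
    exact (gP_deriv n t).deriv
  rw [this]
  exact (gN_smooth n).div_const 2

theorem gP_zero (n : ℕ) {t : ℝ} (h : 1 ≤ t) : gP n t = 0 := by
  unfold gP
  have : ∫ u in (1 : ℝ)..t, gN n u = 0 := by
    apply intervalIntegral.integral_zero_ae
    refine ae_of_all _ (fun u hu => gN_zero n ?_)
    rw [uIoc_of_le h] at hu
    exact hu.1.le
  rw [this, zero_div]

/-- the test function -/
noncomputable def fN (n : ℕ) (y : E) : ℝ := gP n (‖y‖ ^ 2)

theorem fN_smooth (n : ℕ) : ContDiff ℝ ∞ (fN n) := (gP_smooth n).comp (contDiff_norm_sq ℝ)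

theorem fN_zero (n : ℕ) {y : E} (h : y ∉ closedBall (0 : E) 1) : fN n y = 0 := by
  rw [mem_closedBall, dist_zero_right, not_le] at h
  exact gP_zero n (by nlinarith)

theorem fN_cs (n : ℕ) : HasCompactSupport (fN n) :=
  HasCompactSupport.intro (isCompact_closedBall (0 : E) 1) fun _ hx => fN_zero n hx

theorem fN_ts (n : ℕ) : tsupport (fN n) ⊆ closedBall (0 : E) 1 := by
  apply closure_minimal _ isClosed_closedBall
  intro y hy
  by_contra h
  exact hy (fN_zero n h)

theorem gr_fN (n : ℕ) (y v : E) : ⟪gr (fN n) y, v⟫ = gN n (‖y‖ ^ 2) * ⟪y, v⟫ := by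
  rw [inner_gr]
  have h2 : HasFDerivAt (fun y : E => ‖y‖ ^ 2) (2 • (innerSL ℝ y)) y :=
    (hasStrictFDerivAt_norm_sq y).hasFDerivAt
  have h1 : HasFDerivAt (fN n) ((gN n (‖y‖ ^ 2) / 2) • (2 • (innerSL ℝ y))) y :=
    (gP_deriv n (‖y‖ ^ 2)).comp_hasFDerivAt y h2
  rw [h1.fderiv]
  simp
  ring

/-! ## The flux through a sphere -/

theorem flux0 {O : Set E} (hO : IsOpen O) (hB : closedBall (0 : E) 1 ⊆ O) {Z : E → E}
    (hZ : ContDiffOn ℝ ∞ Z O) (hdv : ∀ z ∈ O, dv Z z = 0) :
    ∫ z in ball (0 : E) 1, ⟪z, Z z⟫ = 0 := by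
  have hsub : ball (0 : E) 1 ⊆ O := ball_subset_closedBall.trans hB
  have key : ∀ n : ℕ, ∫ z in ball (0 : E) 1, gN n (‖z‖ ^ 2) * ⟪z, Z z⟫ = 0 := by
    intro n
    have h := ibp_cpt2 hO hZ (fN_smooth n) (fN_cs n) ((fN_ts n).trans hB)
    have h1 : ∫ z in O, (fN n z * dv Z z + ⟪gr (fN n) z, Z z⟫) =
        ∫ z in O, gN n (‖z‖ ^ 2) * ⟪z, Z z⟫ := by
      apply setIntegral_congr_fun hO.measurableSet
      intro z hz
      simp only
      rw [hdv z hz, gr_fN, mul_zero, zero_add]
    rw [h1] at h
    rw [← h]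
    symm
    apply setIntegral_eq_of_subset_of_forall_sdiff_eq_zero hO.measurableSet hsub
    rintro z ⟨-, hz⟩
    rw [mem_ball, dist_zero_right, not_lt] at hz
    rw [gN_zero n (by nlinarith), zero_mul]
  have hZc : ContinuousOn (fun z => ⟪z, Z z⟫) (closedBall (0 : E) 1) :=
    continuousOn_id.inner (hZ.continuousOn.mono hB)
  obtain ⟨C, hC⟩ := (isCompact_closedBall (0 : E) 1).exists_bound_of_continuousOn hZc
  have hmeas : AEStronglyMeasurable (fun z => ⟪z, Z z⟫) (volume.restrict (ball (0 : E) 1)) :=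
    (hZc.mono ball_subset_closedBall).aestronglyMeasurable measurableSet_ball
  have hlim : Tendsto (fun n : ℕ => ∫ z in ball (0 : E) 1, gN n (‖z‖ ^ 2) * ⟪z, Z z⟫) atTop
      (𝓝 (∫ z in ball (0 : E) 1, ⟪z, Z z⟫)) := by
    apply tendsto_integral_of_dominated_convergence (fun _ => C)
    · intro n
      have : Continuous fun z : E => gN n (‖z‖ ^ 2) :=
        (gN_smooth n).continuous.comp (by fun_prop)
      exact this.aestronglyMeasurable.mul hmeas
    · exact integrableOn_const measure_ball_lt_top.ne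
    · intro n
      refine (ae_restrict_iff' measurableSet_ball).2 (ae_of_all _ fun z hz => ?_)
      rw [norm_mul, Real.norm_eq_abs]
      have h1 := gN_abs n (‖z‖ ^ 2)
      have h2 := hC z (ball_subset_closedBall hz)
      have h3 : 0 ≤ ‖⟪z, Z z⟫‖ := norm_nonneg _
      nlinarith [abs_nonneg (gN n (‖z‖ ^ 2))]
    · refine (ae_restrict_iff' measurableSet_ball).2 (ae_of_all _ fun z hz => ?_)
      rw [mem_ball, dist_zero_right] at hz
      have := (gN_lim (t := ‖z‖ ^ 2) (by nlinarith [norm_nonneg z])).mul_const (⟪z, Z z⟫)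
      rwa [one_mul] at this
  simp_rw [key] at hlim
  exact tendsto_nhds_unique hlim tendsto_const_nhds

/-! ## Averages -/

theorem seg {x : E} {ρ s : ℝ} (hs : |s| ≤ ρ) {z : E} (hz : z ∈ closedBall (0 : E) 1) :
    x + s • z ∈ closedBall x ρ := by
  rw [mem_closedBall, dist_zero_right] at hz
  rw [mem_closedBall, dist_eq_norm, add_sub_cancel_left, norm_smul, Real.norm_eq_abs]
  nlinarith [abs_nonneg s]

theorem avg_deriv {O : Set E} (hO : IsOpen O) {f : E → ℝ} (hf : Harm O f) {x : E} {ρ : ℝ}
    (hB : closedBall x ρ ⊆ O) {s : ℝ} (hs : |s| < ρ) :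
    HasDerivAt (fun s : ℝ => ∫ z in ball (0 : E) 1, f (x + s • z)) 0 s := by
  have hat : ∀ y ∈ O, ContDiffAt ℝ ∞ f y := fun y hy => hf.1.contDiffAt (hO.mem_nhds hy)
  have hg : ContDiffOn ℝ ∞ (gr f) O := fun y hy =>
    (contDiffAt_gr (n := ⊤) (by simpa using hat y hy)).contDiffWithinAt
  obtain ⟨C, hC⟩ := (isCompact_closedBall x ρ).exists_bound_of_continuousOn
    (hg.continuousOn.mono hB)
  have hC0 : 0 ≤ C := (norm_nonneg _).trans (hC x (mem_closedBall_self (by
    linarith [abs_nonneg s])))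
  have hcf : ∀ s : ℝ, |s| < ρ → ContinuousOn (fun z : E => f (x + s • z)) (closedBall (0 : E) 1) := by
    intro s hs
    exact (hf.1.continuousOn.mono hB).comp (by fun_prop) fun z hz => seg hs.le hz
  have hcg : ∀ s : ℝ, |s| < ρ → ContinuousOn (fun z : E => ⟪z, gr f (x + s • z)⟫)
      (closedBall (0 : E) 1) := by
    intro s hs
    exact continuousOn_id.inner ((hg.continuousOn.mono hB).comp (by fun_prop)
      fun z hz => seg hs.le hz)
  have hnh : {t : ℝ | |t| < ρ} ∈ 𝓝 s := (isOpen_lt continuous_abs continuous_const).mem_nhds hs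
  have key := hasDerivAt_integral_of_dominated_loc_of_deriv_le (𝕜 := ℝ)
    (μ := volume.restrict (ball (0 : E) 1)) (F := fun (s : ℝ) (z : E) => f (x + s • z))
    (F' := fun (s : ℝ) (z : E) => ⟪z, gr f (x + s • z)⟫) (bound := fun _ => C) (x₀ := s) hnh
    (by
      filter_upwards [hnh] with t ht
      exact ((hcf t ht).mono ball_subset_closedBall).aestronglyMeasurable measurableSet_ball)
    (((hcf s hs).integrableOn_compact (isCompact_closedBall _ _)).mono_set
      ball_subset_closedBall)
    (((hcg s hs).mono ball_subset_closedBall).aestronglyMeasurable measurableSet_ball)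
    (by
      refine (ae_restrict_iff' measurableSet_ball).2 (ae_of_all _ fun z hz t ht => ?_)
      have h1 := hC _ (seg (x := x) (le_of_lt ht) (ball_subset_closedBall hz))
      have h2 : ‖⟪z, gr f (x + t • z)⟫‖ ≤ ‖z‖ * ‖gr f (x + t • z)‖ := norm_inner_le_norm _ _
      rw [mem_ball, dist_zero_right] at hz
      nlinarith [norm_nonneg z, norm_nonneg (gr f (x + t • z))])
    (integrableOn_const measure_ball_lt_top.ne)
    (by
      refine (ae_restrict_iff' measurableSet_ball).2 (ae_of_all _ fun z hz t ht => ?_)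
      have h0 : x + t • z ∈ O := hB (seg (le_of_lt ht) (ball_subset_closedBall hz))
      have h1 : HasFDerivAt f (fderiv ℝ f (x + t • z)) (x + t • z) :=
        ((hat _ h0).differentiableAt (by simp)).hasFDerivAt
      have h2 : HasDerivAt (fun t : ℝ => x + t • z) z t := by
        have := ((hasDerivAt_id t).smul_const z).const_add x
        simpa using this
      have h3 := h1.comp_hasDerivAt t h2
      rw [real_inner_comm, inner_gr]
      exact h3)
  have h0 : ∫ z in ball (0 : E) 1, ⟪z, gr f (x + s • z)⟫ = 0 := by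
    have hcont : Continuous fun z : E => x + s • z := by fun_prop
    apply flux0 (O := (fun z : E => x + s • z) ⁻¹' O) (hO.preimage hcont)
      (fun z hz => hB (seg hs.le hz))
    · exact hg.comp (by fun_prop) fun z hz => hz
    · intro z hz
      have hz' : x + s • z ∈ O := hz
      have hd : DifferentiableAt ℝ (gr f) (x + s • z) :=
        (hg.contDiffAt (hO.mem_nhds hz')).differentiableAt (by simp)
      have h2 : HasFDerivAt (fun z : E => x + s • z) (s • ContinuousLinearMap.id ℝ E) z :=
        ((hasFDerivAt_id z).const_smul s).const_add x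
      have h3 : HasFDerivAt (fun z => gr f (x + s • z))
          ((fderiv ℝ (gr f) (x + s • z)).comp (s • ContinuousLinearMap.id ℝ E)) z :=
        HasFDerivAt.comp (g := gr f) (f := fun z : E => x + s • z) z hd.hasFDerivAt h2
      have h4 : dv (fun z => gr f (x + s • z)) z = s * dv (gr f) (x + s • z) := by
        unfold dv
        rw [h3.fderiv, Finset.mul_sum]
        apply Finset.sum_congr rfl
        intro k _
        simp
      rw [h4, dv_gr ((hat _ hz').of_le (by norm_cast)), hf.2 _ hz', mul_zero]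
  rw [h0] at key
  exact key.2

theorem mean {O : Set E} (hO : IsOpen O) {f : E → ℝ} (hf : Harm O f) {x : E} {ρ : ℝ}
    (hρ : 0 < ρ) (hB : closedBall x ρ ⊆ O) :
    ∫ y in ball x ρ, f y = (volume (ball x ρ)).toReal * f x := by
  obtain ⟨δ, hδ, hδO⟩ := (isCompact_closedBall x ρ).exists_cthickening_subset_open hO hB
  rw [cthickening_closedBall hδ.le hρ.le] at hδO
  have hd : ∀ s ∈ Icc (0 : ℝ) ρ,
      HasDerivAt (fun s : ℝ => ∫ z in ball (0 : E) 1, f (x + s • z)) 0 s := by
    intro s hs
    apply avg_deriv hO hf hδO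
    rw [abs_of_nonneg hs.1]
    linarith [hs.2]
  have h1 := constant_of_has_deriv_right_zero
    (f := fun s : ℝ => ∫ z in ball (0 : E) 1, f (x + s • z)) (a := 0) (b := ρ)
    (fun s hs => (hd s hs).continuousAt.continuousWithinAt)
    (fun s hs => (hd s ⟨hs.1, hs.2.le⟩).hasDerivWithinAt) ρ ⟨hρ.le, le_rfl⟩
  simp only [zero_smul, add_zero] at h1
  have h2 : ∫ z in ball (0 : E) 1, f x = (volume (ball (0 : E) 1)).toReal * f x := by
    rw [setIntegral_const]
    rfl
  rw [h2] at h1
  have h3 := Measure.setIntegral_comp_smul_of_pos (volume : Measure E) (fun y => f (x + y))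
    (ball (0 : E) 1) hρ
  rw [smul_unitBall_of_pos hρ] at h3
  have h4 : ∫ y in ball (0 : E) ρ, f (x + y) = ∫ y in ball x ρ, f y := by
    have := (measurePreserving_add_left (volume : Measure E) x).setIntegral_preimage_emb
      (measurableEmbedding_addLeft x) f (ball x ρ)
    rw [← this]
    congr 2
    ext y
    simp [dist_eq_norm]
  have hfr : Module.finrank ℝ E = 3 := by simp
  rw [h4, hfr] at h3
  rw [h3] at h1
  have h5 : (volume (ball x ρ)).toReal = ρ ^ 3 * (volume (ball (0 : E) 1)).toReal := by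
    rw [Measure.addHaar_ball _ _ hρ.le, hfr, ENNReal.toReal_mul,
      ENNReal.toReal_ofReal (by positivity)]
  rw [h5, mul_assoc, ← h1, smul_eq_mul]
  field_simp

theorem pf_MVB : T_MVB := by
  intro O h x v ρ hO hh hρ hB
  have hsm : ∀ k : Fin 3, Harm O (pd k h) := fun k => harm_pd hO hh k
  have hint : ∀ k : Fin 3, IntegrableOn (fun y => v k * pd k h y) (ball x ρ) := by
    intro k
    have hc : ContinuousOn (fun y => v k * pd k h y) (closedBall x ρ) :=
      continuousOn_const.mul ((hsm k).1.continuousOn.mono hB)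
    exact (hc.integrableOn_compact (isCompact_closedBall _ _)).mono_set ball_subset_closedBall
  have e : ∀ y, ⟪v, gr h y⟫ = ∑ k : Fin 3, v k * pd k h y := by
    intro y
    rw [inner_E]
    simp_rw [gr_apply]
  simp_rw [e]
  rw [integral_finsetSum _ fun k _ => hint k, Finset.mul_sum]
  apply Finset.sum_congr rfl
  intro k _
  rw [integral_const_mul, mean hO (hsm k) hρ hB]
  ring

end Pool.Agent.H11.AP
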